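import Pool.Agent.L5helper3.Hilb.Logs

/-!
# Logarithms with many relations lie on varieties of large degree

Let `l_1, ..., l_N` be logarithms of algebraic numbers which are linearly independent over `ℚ` (or
linear forms in `1` and such logarithms which are, with `1`, linearly independent over the field
`ℚ̄` of the algebraic numbers), and let `X` be the smallest algebraic subset of affine `N`-space
defined over `ℚ̄` which contains the point `l`.  The conjecture says that `X` is the whole space.
Let `t` be the dimension of `X`, i.e. the transcendence degree of `ℚ̄(l_1, ..., l_N)`, and let `D`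
be the degree of (the projective closure of) `X`: the number with `H(M) ∼ D M ^ t / t!`, where the
Hilbert function `H(M)` is the dimension of the space of all values at `l` of the polynomials over
`ℚ̄` of degree at most `M`.  We prove

`D binom(m + t - 1, t) + binom(m + t - 1, m) ≥ (N + 1) + (m - 1) ⌊(N + 1) ^ 2 / 4⌋`

for all `m ≥ 1`, in particular (`m = 2`)

`2 (t + 1) (2 D + t) + 5 ≥ (N + 3) ^ 2`.

Thus for a fixed transcendence degree `t` the degree of `X` grows at least like
`N ^ 2 / (4 (t + 1))`.  (For every nondegenerate variety one has `D ≥ N - t + 1` only, and this is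
attained.)  The case `t = 1` is `FieldDegrees`, a starting file of this problem.

The proof.  The lower bound for `H(m)` is the starting theorem `W256.pow_growth`, which comes from
the hyperplane case of the linear subgroup theorem of Waldschmidt and Roy.  For an upper bound let
`u_1, ..., u_t` be linear combinations of the `l_i` such that the ring of all polynomials in the
`l_i` is a finite module over `ℚ̄[u]`, compatibly with degrees (`Normal`).  The norm of
the value `f` of a polynomial of degree `≤ m` is then a polynomial in `u` of degree `≤ m d`,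
`d = [ℚ̄(l) : ℚ̄(u)]` (`NormDeg`).  Let `e_1, ..., e_d` be a basis of this field extension.  If all
coordinates of `f` vanish to the order `m` at a general point `a`, and if moreover the forms of
degree `m` at `a` satisfy the equations given by one point of `X` above `a`, then the norm of `f`
vanishes to the order `m d + 1` at `a`, hence `f = 0` (`Upper`).  This gives
`H(m) ≤ d binom(m + t - 1, t) + binom(m + t - 1, m)`, and `d = D` (`Fld`, `Asym`).
-/

set_option autoImplicit false

namespace Pool.Agent.Results.MP_60829e_nt.DegreeOfVariety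

open Filter Topology

/-- The space of all linear combinations, with algebraic coefficients, of `1` and of logarithms of
algebraic numbers. -/
noncomputable def LogForms : Submodule (algebraicClosure ℚ ℂ) ℂ :=
  Submodule.span (algebraicClosure ℚ ℂ) ({1} ∪ {z : ℂ | IsAlgebraic ℚ (Complex.exp z)})

/-- The Hilbert function: the dimension over the algebraic numbers of the space of all values
`P(l_1, ..., l_N)` of polynomials `P` over the algebraic numbers of total degree at most `M`. -/
noncomputable def hilbert {N : ℕ} (l : Fin N → ℂ) (M : ℕ) : ℕ :=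
  Module.finrank (algebraicClosure ℚ ℂ)
    ((MvPolynomial.restrictTotalDegree (Fin N) (algebraicClosure ℚ ℂ) M).map
      (MvPolynomial.aeval l).toLinearMap : Submodule (algebraicClosure ℚ ℂ) ℂ)

/-- **Main result.** -/
theorem result (N : ℕ) (l : Fin N → ℂ)
    (h : ((∀ j, IsAlgebraic ℚ (Complex.exp (l j))) ∧ LinearIndependent ℚ l) ∨
      ((∀ j, l j ∈ LogForms) ∧
        LinearIndependent (algebraicClosure ℚ ℂ) (Fin.cons 1 l : Fin (N + 1) → ℂ))) :
    ∃ t D : ℕ, 1 ≤ D ∧
      Algebra.trdeg (algebraicClosure ℚ ℂ)
        (IntermediateField.adjoin (algebraicClosure ℚ ℂ) (Set.range l)) = t ∧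
      Tendsto (fun M : ℕ => (t.factorial : ℝ) * hilbert l M / (M : ℝ) ^ t) atTop (𝓝 (D : ℝ)) ∧
      (∀ m : ℕ, 1 ≤ m → (N + 1) + (m - 1) * ((N + 1) ^ 2 / 4) ≤
        D * (m + t - 1).choose t + (m + t - 1).choose m) ∧
      (N + 3) ^ 2 ≤ 2 * (t + 1) * (2 * D + t) + 5 := by
  have h' : (∀ j, l j ∈ Pool.Agent.H301R2.SSE.Lt) ∧
      LinearIndependent (algebraicClosure ℚ ℂ) (Fin.cons 1 l : Fin (N + 1) → ℂ) := by
    rcases h with ⟨h1, h2⟩ | h
    · exact ⟨fun j => Pool.Agent.H301R2.SSE.Lt_log (h1 j),
        Pool.Agent.L5helper3.Hilb.li_cons l h1 h2⟩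
    · exact h
  obtain ⟨t, D, h1, h2, h3, h4⟩ := Pool.Agent.L5helper3.Hilb.main l h'.1 h'.2
  refine ⟨t, D, h1, h2, h3, h4, ?_⟩
  have h5 := h4 2 (by norm_num)
  have e1 : 2 + t - 1 = t + 1 := by omega
  rw [e1, Nat.choose_succ_self_right] at h5
  have h6 : 2 * (t + 1).choose 2 = (t + 1) * t := by
    have := Nat.choose_two_right (t + 1)
    rw [this]
    have h7 : 2 ∣ (t + 1) * (t + 1 - 1) := by
      rw [Nat.add_sub_cancel, mul_comm]
      exact (Nat.even_mul_succ_self t).two_dvd
    rw [Nat.mul_div_cancel' h7, Nat.add_sub_cancel]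
  have h8 : (N + 1) ^ 2 ≤ 4 * ((N + 1) ^ 2 / 4) + 1 := by
    rcases Nat.even_or_odd' (N + 1) with ⟨k, hk | hk⟩
    · rw [hk]
      have : (2 * k) ^ 2 = 4 * (k * k) := by ring
      omega
    · rw [hk]
      have : (2 * k + 1) ^ 2 = 4 * (k * k + k) + 1 := by ring
      omega
  nlinarith

end Pool.Agent.Results.MP_60829e_nt.DegreeOfVariety
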