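import Mathlib
import Pool.Agent.L5helper73.LA.D

/-!
# Infinite sequences of logarithms and computations with a growing number of additions

Let `l_0, l_1, l_2, …` be logarithms of algebraic numbers which are linearly independent over `ℚ`; they should be
algebraically independent. We consider polynomial relations of ARBITRARY degree which can be computed with few additions,
and arbitrarily many multiplications, from the variables, from arbitrary complex constants `c_0, c_1, …` and from
algebraic numbers. Let `ψ` be any function. There are numbers `r_j`, which depend on `ψ` alone, such that the following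
holds. If the sequence `l` is divided in consecutive blocks of `r_0, r_1, r_2, …` terms then there are subsets `S_j` of the
blocks such that the sums `y_j = ∑ i ∈ S_j, l_i`, infinitely many logarithms of algebraic numbers, have the property:
for every `k` no nonzero polynomial in `y_k, y_(k+1), …` computed with at most `ψ(k)` additions, where
`c_0, …, c_(ψ(k) - 1)` and `y_0, …, y_(k-1)` are allowed as constants, is zero. The same holds for polynomials in
`y_k, y_(k+1), …` with coefficients which are combinations of `c_0, …, c_(ψ(k) - 1)` over the algebraic numbers, if for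
every `j` at most `ψ(j)` different monomials in the variables with indices up to `j` occur; their degrees and the number of
their terms are not bounded.

The numbers `y_j` can be chosen one after another, and for each of them only an exceptional set `B_j(y_0, …, y_(j-1))` has
to be avoided, which contains no cube `{x + ∑ i ∈ S, w_i}` with `r_j` directions `w_i` which are linearly independent
over the field of algebraic numbers, and which contains logarithms of very few integers. Hence one can for example choose
the `y_j` among the logarithms of the integers in any given sets of positive upper density, even of upper density zero if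
the sets have more than `x (log log x) ^ C / log x` elements up to `x`, for all `C` and for arbitrarily large `x`.

The proof: the theorem of Baker, the determinant method for computations with few additions on cubes
(`Pool.Agent.R351.cube_good`), with arbitrary constants, and induction on the number of the variables.
-/

set_option autoImplicit false

namespace Pool.Agent.Results.MP_60829e_nt.InfiniteSequences

/-- The polynomials `G 0, …, G (L - 1)` in the variables `X s`, `s ∈ σ`, are computed with one addition each: `G l` is the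
sum of two products of powers of the variables, of the numbers `t o`, of the earlier polynomials `G 0, …, G (l - 1)`, and of
an algebraic number. -/
def Computed {ι σ : Type} (t : ι → ℂ) (L : ℕ) (G : ℕ → MvPolynomial σ ℂ) : Prop :=
  ∃ (c : ℕ → Bool → algebraicClosure ℚ ℂ) (u : ℕ → Bool → ι →₀ ℕ) (a : ℕ → Bool → σ →₀ ℕ) (h : ℕ → Bool → ℕ → ℕ),
    ∀ l < L, G l = ∑ b : Bool, MvPolynomial.monomial (a l b) ((c l b : ℂ) * (u l b).prod fun o e => t o ^ e) *
      ∏ l' ∈ Finset.range l, G l' ^ h l b l'

/-- The numbers `y j`, `j ∈ J`, are not a zero of any nonzero polynomial which is computed from the variables, the numbers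
`t o` and algebraic numbers with at most `L` additions and arbitrarily many multiplications. -/
def Free {ι : Type} (t : ι → ℂ) (L : ℕ) (J : Set ℕ) (y : ℕ → ℂ) : Prop :=
  ∀ G : ℕ → MvPolynomial J ℂ, Computed t L G → ∀ l < L, G l ≠ 0 → MvPolynomial.eval (fun j : J => y j) (G l) ≠ 0

/-- For every `j ∈ J` at most `ψ j` different monomials in the variables `X i`, `i ≤ j`, occur in the terms of `Q`. -/
def Staircase (ψ : ℕ → ℕ) {J : Set ℕ} (Q : MvPolynomial J ℂ) : Prop :=
  ∀ j ∈ J, ((fun s : J →₀ ℕ => s.filter fun i : J => (i : ℕ) ≤ j) '' (Q.support : Set (J →₀ ℕ))).ncard ≤ ψ j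

/-- The numbers `y j`, `j ∈ J`, are not a zero of any nonzero polynomial with the property `Staircase ψ`, the
coefficients of which are combinations of `c 0, …, c (N - 1)` over the algebraic numbers. -/
def SparseFree (ψ : ℕ → ℕ) (c : ℕ → ℂ) (N : ℕ) (J : Set ℕ) (y : ℕ → ℂ) : Prop :=
  ∀ Q : MvPolynomial J ℂ, Q ≠ 0 → Staircase ψ Q →
    (∀ s, Q.coeff s ∈ Submodule.span (algebraicClosure ℚ ℂ) (Set.range fun i : Fin N => c i)) →
      MvPolynomial.eval (fun j : J => y j) Q ≠ 0

/-- the numbers `c 0, …, c (g - 1)` and `y 0, …, y (k - 1)` -/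
def known (c y : ℕ → ℂ) (g k : ℕ) : Fin g ⊕ Fin k → ℂ := Sum.elim (fun i => c i) (fun i => y i)

open Pool.Agent.R351 Pool.Agent.L5helper73.LA
open Pool.Agent.H301R2.SSE (QB)

theorem linInd {ι : Type} (l : ι → ℂ) (halg : ∀ i, IsAlgebraic ℚ (Complex.exp (l i))) (hl : LinearIndependent ℚ l) :
    LinearIndependent (algebraicClosure ℚ ℂ) l := by
  rw [linearIndependent_iff']
  intro s c hc i hi
  have h1 := Pool.Agent.H297R2.baker (fun i : s => l i) (fun i => halg i)
    (hl.comp _ Subtype.val_injective) (fun i => (c i : ℂ)) (fun i => (mem_algebraicClosure_iff).1 (c i).2) (by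
      rw [← hc, ← Finset.sum_coe_sort s fun i => c i • l i]
      rfl) ⟨i, hi⟩
  exact_mod_cast h1

/-- Let `ψ` be any function. There are numbers `r j` such that:

(1) for every sequence `c` of complex numbers there are sets `B j y` of complex numbers, which depend only on
`y 0, …, y (j - 1)`, such that (a) `B j y` contains no cube with `r j` directions which are linearly independent over the
algebraic numbers; (b) for `X ≥ 16` at most `r_j (log log X) ^ r_j / log X * X` of the integers `1 ≤ n ≤ X` have a
logarithm in `B j y`; (c) for all sequences `y` of complex numbers and all sets `J` of natural numbers, finite or infinite,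
with `y j ∉ B j y` for `j ∈ J`, and all `k ≤ min J`: the numbers `y j`, `j ∈ J`, are not a zero of any nonzero polynomial
which is computed from the variables, `c 0, …, c (ψ k - 1)`, `y 0, …, y (k - 1)` and algebraic numbers with at most `ψ k`
additions, and not a zero of any nonzero polynomial with the property `Staircase ψ` whose coefficients are combinations
of `c 0, …, c (ψ k - 1)` over the algebraic numbers.

(2) for every sequence `c` of complex numbers and every sequence `l` of logarithms of algebraic numbers which are linearly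
independent over `ℚ` there are subsets `S j` of the consecutive blocks of `r 0, r 1, r 2, …` indices such that the sums
`y j = ∑ i ∈ S j, l i` have both properties for all `k` and `J = {k, k + 1, …}`. -/
theorem result (ψ : ℕ → ℕ) : ∃ r : ℕ → ℕ,
    (∀ c : ℕ → ℂ, ∃ B : ℕ → (ℕ → ℂ) → Set ℂ,
      (∀ j y y', (∀ i < j, y i = y' i) → B j y = B j y') ∧
      (∀ j y (x : ℂ) (w : Fin (r j) → ℂ), LinearIndependent (algebraicClosure ℚ ℂ) w →
        ∃ S : Finset (Fin (r j)), x + ∑ i ∈ S, w i ∉ B j y) ∧
      (∀ j y (X : ℕ), 16 ≤ X → ({n : ℕ | 1 ≤ n ∧ n ≤ X ∧ ∃ l ∈ B j y, Complex.exp l = n}.ncard : ℝ) ≤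
        r j * Real.log (Real.log X) ^ r j / Real.log X * X) ∧
      ∀ (y : ℕ → ℂ) (J : Set ℕ), (∀ j ∈ J, y j ∉ B j y) → ∀ k, (∀ j ∈ J, k ≤ j) →
        Free (known c y (ψ k) k) (ψ k) J y ∧ SparseFree ψ c (ψ k) J y) ∧
    ∀ c l : ℕ → ℂ, (∀ i, IsAlgebraic ℚ (Complex.exp (l i))) → LinearIndependent ℚ l →
      ∃ S : ℕ → Finset ℕ, (∀ j, ∀ i ∈ S j, ∑ i' ∈ Finset.range j, r i' ≤ i ∧ i < ∑ i' ∈ Finset.range (j + 1), r i') ∧
        ∀ k, Free (known c (fun j => ∑ i ∈ S j, l i) (ψ k) k) (ψ k) {j | k ≤ j} (fun j => ∑ i ∈ S j, l i) ∧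
          SparseFree ψ c (ψ k) {j | k ≤ j} fun j => ∑ i ∈ S j, l i := by
  classical
  have hac : IsAlgClosure ℚ (algebraicClosure ℚ ℂ) := algebraicClosure.isAlgClosure ℚ ℂ
  have hacl : IsAlgClosed (algebraicClosure ℚ ℂ) := IsAlgClosure.isAlgClosed ℚ
  have hinf : Infinite (algebraicClosure ℚ ℂ) := IsAlgClosed.instInfinite
  obtain ⟨R, hR⟩ := no_cubes (Psi ψ)
  choose C hC using fun j : ℕ => rate_slp1 (Lam (Psi ψ) j + j + 1) (1 + Lam (Psi ψ) j)
  set τ : ℂ := 2 * Real.pi * Complex.I with hτ
  have both : ∀ (c y : ℕ → ℂ) (J : Set ℕ), (∀ j ∈ J, y j ∉ Bad (algebraicClosure ℚ ℂ) c τ (Psi ψ) j y) →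
      ∀ k, (∀ j ∈ J, k ≤ j) → Free (known c y (ψ k) k) (ψ k) J y ∧ SparseFree ψ c (ψ k) J y := by
    intro c y J hJ k hk
    refine ⟨fun G hG l hl h0 => ?_, fun Q h0 hQ hW => ?_⟩
    · exact free_of_notMem' c τ (Psi ψ) y J hJ k hk (ψ k) (ψ k) (le_Psi ψ k) (le_Psi ψ k) G hG l hl h0
    · exact stair c τ ψ (Psi ψ) y hJ (fun j hj => le_Psi' ψ (hk j hj)) (fun j hj => mul_le_Psi ψ (hk j hj)) hQ hW h0
  have hRR := fun c => hR (algebraicClosure ℚ ℂ) ℂ infTrd_complex c τ
  refine ⟨fun j => R j + C j, fun c => ⟨fun j y => Bad (algebraicClosure ℚ ℂ) c τ (Psi ψ) j y, ?_, ?_, ?_, ?_⟩, ?_⟩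
  · intro j y y' h
    exact bad_congr c τ (Psi ψ) j h
  · intro j y x w hw
    exact hRR c j y x _ (Nat.le_add_right _ _) w hw
  · intro j y X hX
    set A : Finset ℕ := (Finset.Ioc 0 X).filter fun n => ∃ l ∈ Bad (algebraicClosure ℚ ℂ) c τ (Psi ψ) j y,
      Complex.exp l = n with hA
    have h1 : {n : ℕ | 1 ≤ n ∧ n ≤ X ∧ ∃ l ∈ Bad (algebraicClosure ℚ ℂ) c τ (Psi ψ) j y, Complex.exp l = n} = ↑A := by
      ext n
      simp only [Set.mem_ofPred_eq, hA, Finset.coe_filter, Finset.mem_Ioc]
      constructor
      · rintro ⟨h1, h2, h3⟩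
        exact ⟨⟨h1, h2⟩, h3⟩
      · rintro ⟨⟨h1, h2⟩, h3⟩
        exact ⟨h1, h2, h3⟩
    rw [h1, Set.ncard_coe_finset]
    refine (hC j X hX (Fin.cons τ (Tc c (Psi ψ) j y)) A (Finset.filter_subset _ _) fun n hn hgood => ?_).trans ?_
    · obtain ⟨hn1, l, hl, hln⟩ := Finset.mem_filter.1 hn
      have hn0 := (Finset.mem_Ioc.1 hn1).1
      have h3 : Complex.exp l = Complex.exp (Real.log n : ℂ) := by
        rw [hln, ← Complex.ofReal_exp, Real.exp_log (by exact_mod_cast hn0)]
        push_cast
        rfl
      obtain ⟨b, hb⟩ := Complex.exp_eq_exp_iff_exists_int.1 h3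
      rw [hb] at hl
      exact notMem_bad c τ (Psi ψ) j y hgood (bad_shift c τ (Psi ψ) j y b hl)
    · have h4 := Pool.Agent.TH681.QC.er_mono (Nat.le_add_left (C j) (R j)) hX
      exact mul_le_mul_of_nonneg_right h4 (Nat.cast_nonneg _)
  · intro y J hJ k hk
    exact both c y J hJ k hk
  · intro c l halg hl
    obtain ⟨S, hS, hS'⟩ := exists_sums (Psi ψ) (fun j => R j + C j) c τ
      (fun j y x w hw => hRR c j y x _ (Nat.le_add_right _ _) w hw) l (linInd l halg hl)
    exact ⟨S, hS, fun k => both c (fun j => ∑ i ∈ S j, l i) {j | k ≤ j} (fun j _ => hS' j) k fun j hj => hj⟩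

end Pool.Agent.Results.MP_60829e_nt.InfiniteSequences
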