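import Mathlib
import Pool.Agent.L5helper52.LL.Cnt
import Pool.Agent.Q163.LE.Sim

set_option autoImplicit false

/-!
# Almost all tuples of logarithms have no relations of bounded degree over a simultaneously Liouville field

A subfield `K` of `ℂ` is simultaneously Liouville if any finitely many of its elements have simultaneous
rational approximations of every order. Such fields are large: for every sequence `H n` of heights which
tends to infinity, all real numbers `x` such that for some `A` and all `E`, for all large `n`, some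
fraction `p / q` of height at most `H n ^ A` has distance at most `H n ^ (-E)` from `x`, form such a field.

For all `k`, `d` and `e` there is a constant `C` such that for every simultaneously Liouville field `K` and
all `T`, for all but at most `C T ^ (k - 1 / C)` of the `k`-tuples `n` of integers in `[1, T]`, no
logarithms of `n 1, ..., n k` satisfy a nonzero polynomial relation of degree at most `d` over any
extension of `K` of degree at most `e`.

The proof takes the norm of the relation down to `K`, replaces its coefficients by rational numbers with one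
denominator `q` and uses the measure of algebraic independence of the logarithms of almost all tuples
(`Pool.Agent.R351.GF.main_range`) along the sequence of the heights `q ^ 2`.
-/

namespace Pool.Agent.Results.MP_60829e_nt.LiouvilleCoefficients

open Filter

/-- Any finitely many elements of `K` have simultaneous rational approximations of every order: for
every exponent `w` there are arbitrarily large `q` with `|q x - p| < q ^ (-w)` for every `x` in the finite
set, with an integer `p` which depends on `x`. -/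
def SimLiouville (K : Subfield ℂ) : Prop :=
  ∀ s : Finset ℂ, (∀ x ∈ s, x ∈ K) → ∀ w q₀ : ℕ, ∃ q : ℕ, q₀ ≤ q ∧ 1 ≤ q ∧
    ∀ x ∈ s, ∃ p : ℤ, ‖(q : ℂ) * x - p‖ < 1 / (q : ℝ) ^ w

/-- For some `A` and all `E`, for all large `n` there is a fraction `p / q` with `|p|, |q| ≤ H n ^ A` and
`|x - p / q| ≤ H n ^ (-E)`. -/
def ApproximableAt (H : ℕ → ℝ) (x : ℝ) : Prop :=
  ∃ A : ℕ, ∀ E : ℕ, ∃ n₀ : ℕ, ∀ n, n₀ ≤ n → ∃ p q : ℤ, q ≠ 0 ∧ |(p : ℝ)| ≤ H n ^ A ∧
    |(q : ℝ)| ≤ H n ^ A ∧ |x - p / q| ≤ 1 / H n ^ E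

/-- Some logarithms `l i` of the integers `n i` (of any branches) satisfy a nonzero polynomial relation of
total degree at most `d` over some extension of `K` of degree at most `e`. -/
def Related (K : Subfield ℂ) (d e : ℕ) {k : ℕ} (n : Fin k → ℕ) : Prop :=
  ∃ l : Fin k → ℂ, (∀ i, Complex.exp (l i) = n i) ∧ ∃ L : IntermediateField K ℂ,
    FiniteDimensional K L ∧ Module.finrank K L ≤ e ∧
      ∃ P : MvPolynomial (Fin k) L, P ≠ 0 ∧ P.totalDegree ≤ d ∧ MvPolynomial.aeval l P = 0

theorem ap_iff {H : ℕ → ℝ} (hH : Tendsto H atTop atTop) (x : ℝ) :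
    Pool.Agent.Q163.LE.Ap (fun n => Real.log (H n)) x ↔ ApproximableAt H x := by
  have hexp : ∀ (a : ℕ) (n : ℕ), 1 ≤ H n → Real.exp (a * Real.log (H n)) = H n ^ a := by
    intro a n hn
    rw [← Real.log_pow, Real.exp_log (by positivity)]
  constructor
  · rintro ⟨A, hA, h⟩
    refine ⟨⌈A⌉₊, fun E => ?_⟩
    obtain ⟨n₀, hn₀⟩ := Filter.eventually_atTop.1 ((h E).and (hH.eventually_ge_atTop 1))
    refine ⟨n₀, fun n hn => ?_⟩
    obtain ⟨⟨p, q, hq, h1, h2, h3⟩, hH1⟩ := hn₀ n hn
    have h4 : Real.exp (A * Real.log (H n)) ≤ H n ^ ⌈A⌉₊ := by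
      rw [← hexp _ n hH1]
      exact Real.exp_le_exp.2 (mul_le_mul_of_nonneg_right (Nat.le_ceil A) (Real.log_nonneg hH1))
    refine ⟨p, q, hq, h1.trans h4, h2.trans h4, h3.trans (le_of_eq ?_)⟩
    rw [Real.exp_neg, hexp E n hH1, one_div]
  · rintro ⟨A, h⟩
    refine ⟨A, Nat.cast_nonneg A, fun E => ?_⟩
    obtain ⟨n₀, hn₀⟩ := h ⌈E⌉₊
    filter_upwards [Filter.eventually_ge_atTop n₀, hH.eventually_ge_atTop 1] with n hn hH1
    obtain ⟨p, q, hq, h1, h2, h3⟩ := hn₀ n hn
    refine ⟨p, q, hq, h1.trans (le_of_eq (hexp A n hH1).symm), h2.trans (le_of_eq (hexp A n hH1).symm),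
      h3.trans ?_⟩
    rw [one_div, ← hexp _ n hH1, ← Real.exp_neg]
    exact Real.exp_le_exp.2 (neg_le_neg (mul_le_mul_of_nonneg_right (Nat.le_ceil E)
      (Real.log_nonneg hH1)))

theorem exists_field (H : ℕ → ℝ) (hH : Tendsto H atTop atTop) :
    ∃ K : Subfield ℂ, SimLiouville K ∧ ∀ x : ℝ, (x : ℂ) ∈ K ↔ ApproximableAt H x := by
  classical
  have hT : Tendsto (fun n => Real.log (H n)) atTop atTop := Real.tendsto_log_atTop.comp hH
  refine ⟨(Pool.Agent.Q163.LE.ApField _ hT).map Complex.ofRealHom, fun s hs w q₀ => ?_, fun x => ?_⟩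
  · have hre : ∀ x ∈ s, x.re ∈ Pool.Agent.Q163.LE.ApField _ hT ∧ (x.re : ℂ) = x := by
      intro x hx
      obtain ⟨y, hy, hyx⟩ := Subfield.mem_map.1 (hs x hx)
      have h1 : ((y : ℝ) : ℂ) = x := hyx
      rw [← h1, Complex.ofReal_re]
      exact ⟨hy, rfl⟩
    obtain ⟨q, h1, h2, h3⟩ := Pool.Agent.Q163.LE.sim_apField _ hT (s.image Complex.re)
      (fun y hy => by
        obtain ⟨x, hx, rfl⟩ := Finset.mem_image.1 hy
        exact (hre x hx).1) w q₀
    refine ⟨q, h1, h2, fun x hx => ?_⟩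
    obtain ⟨p, hp⟩ := h3 x.re (Finset.mem_image_of_mem _ hx)
    refine ⟨p, ?_⟩
    have h4 : (q : ℂ) * x - p = (((q : ℝ) * x.re - p : ℝ) : ℂ) := by
      push_cast
      rw [(hre x hx).2]
    rw [h4, Complex.norm_real, Real.norm_eq_abs]
    exact hp
  · rw [Subfield.mem_map]
    constructor
    · rintro ⟨y, hy, hyx⟩
      have h1 : y = x := Complex.ofReal_injective hyx
      rw [← h1]
      exact (ap_iff hH y).1 hy
    · intro hx
      exact ⟨x, (ap_iff hH x).2 hx, rfl⟩

/-- **Main result.** -/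
theorem result :
    (∀ H : ℕ → ℝ, Tendsto H atTop atTop →
      ∃ K : Subfield ℂ, SimLiouville K ∧ ∀ x : ℝ, (x : ℂ) ∈ K ↔ ApproximableAt H x) ∧
    ∀ k d e : ℕ, ∃ C : ℕ, 0 < C ∧ ∀ K : Subfield ℂ, SimLiouville K → ∀ T : ℕ, 1 ≤ T →
      (({n : Fin k → ℕ | (∀ i, 1 ≤ n i ∧ n i ≤ T) ∧ Related K d e n}.ncard : ℕ) : ℝ) ≤
        C * (T : ℝ) ^ ((k : ℝ) - 1 / C) := by
  classical
  refine ⟨exists_field, fun k d e => ?_⟩
  obtain ⟨C, hC, h⟩ := Pool.Agent.L5helper52.LL.count k d e
  refine ⟨C, hC, fun K hK T hT => ?_⟩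
  have h1 := h K hK T hT
  have h2 : {n : Fin k → ℕ | (∀ i, 1 ≤ n i ∧ n i ≤ T) ∧ Related K d e n} =
      (((Fintype.piFinset fun _ : Fin k => Finset.Ioc 0 T).filter fun n =>
        Pool.Agent.L5helper52.LL.Rel K d e n : Finset (Fin k → ℕ)) : Set (Fin k → ℕ)) := by
    ext n
    rw [Finset.coe_filter, Set.mem_ofPred_eq, Set.mem_ofPred_eq, Fintype.mem_piFinset]
    simp only [Finset.mem_Ioc, Nat.lt_iff_add_one_le, zero_add]
    exact Iff.rfl
  rw [h2, Set.ncard_coe_finset]
  exact h1

end Pool.Agent.Results.MP_60829e_nt.LiouvilleCoefficients
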