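import Pool.Agent.L5helper3.FewForms.Quad

/-!
# Homogeneous relations between logarithms which involve few linear forms

Let `l_1, ..., l_N` be linear forms in `1` and logarithms of algebraic numbers which are linearly
independent over the field `ℚ̄` of the algebraic numbers; by the theorem of Baker one can take
`l = (1, λ_1, ..., λ_(N-1))` with logarithms `λ_i` of algebraic numbers which are linearly
independent over `ℚ`. The conjecture says that then no nonzero homogeneous polynomial `f` over `ℚ̄`
vanishes at `l`. We consider the homogeneous relations `f` of degree `D ≥ 2` which involve only `m`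
linear forms: `f = F(u_1, ..., u_m)` with linear forms `u_i` in `N` variables and a form `F` of
degree `D` in `m` variables. We assume that the degree of the relation is minimal for `u(l)`: no
nonzero form of degree `D - 1` vanishes at `(u_1(l), ..., u_m(l))`. (For `D = 2` this means that the
`u_i` are linearly independent, and is no restriction.)

* The set of all these `f` has dimension at most `binom (D + m - 1) D - m`, for all `m` and `D` and
  for all forms `F` simultaneously. The bound does not depend on `N`.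
* At most `κ H ^ (binom (D + m - 1) D - m)` of these `f` have integer coefficients of absolute
  value at most `H`.
* For `D = 2`: the symmetric matrices `S` over `ℚ̄` of rank at most `m` with `∑ S_ij l_i l_j = 0` form
  a set of dimension at most `m (m - 1) / 2`, and at most `κ H ^ (m (m - 1) / 2)` of them have
  integer entries of absolute value at most `H`.

The proof. Assume that the dimension is larger. Then there is an ultrapower of `ℚ̄` with a relation
`f = F(u)` such that more than `binom (D + m - 1) D - m` coordinates of `f` are algebraically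
independent over `ℚ̄`. The corresponding partial derivatives extend to derivations of the ultrapower
of `ℂ` which vanish on `ℂ` (starting module `TH519.FE.Ops`). They map `f = F(u)` to linearly
independent forms `∑ ∂_iF(u) v_i + G(u)` which vanish at `l`. In the space of all pairs `(v, G)`,
the pairs with `∑ ∂_iF(u(l)) v_i(l) + G(u(l)) = 0` form a space of dimension at most
`m (m - 1) + binom (D + m - 1) D` by the hyperplane case of the linear subgroup theorem of
Waldschmidt and Roy (starting module `W254.HP`; the numbers `∂_iF(u(l))` are linearly independent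
over `ℚ̄`), and the pairs `v = A u`, `G = - ∑ ∂_iF (A X)_i`, `A` an `m × m` matrix, give the
derivative zero.
-/

set_option autoImplicit false

namespace Pool.Agent.Results.MP_60829e_nt.RelationsInFewForms

open MvPolynomial

/-- The space of all linear combinations, with algebraic coefficients, of `1` and of logarithms of
algebraic numbers. -/
noncomputable def LogForms : Submodule (algebraicClosure ℚ ℂ) ℂ :=
  Submodule.span (algebraicClosure ℚ ℂ) ({1} ∪ {z : ℂ | IsAlgebraic ℚ (Complex.exp z)})

/-- The linear form `∑ j, c j * X j`. -/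
noncomputable def linearForm {N : ℕ} (c : Fin N → algebraicClosure ℚ ℂ) :
    MvPolynomial (Fin N) (algebraicClosure ℚ ℂ) :=
  ∑ j, C (c j) * X j

/-- `f` vanishes at `l`, and `f = F(u_1, ..., u_m)` with a form `F` of degree `D` in `m` variables
and linear forms `u_1, ..., u_m` such that no nonzero form of degree `D - 1` in `m` variables
vanishes at `(u_1(l), ..., u_m(l))`. -/
def IsRelation {N : ℕ} (l : Fin N → ℂ) (m D : ℕ)
    (f : MvPolynomial (Fin N) (algebraicClosure ℚ ℂ)) : Prop :=
  aeval l f = 0 ∧
  ∃ (c : Fin m → Fin N → algebraicClosure ℚ ℂ)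
    (F : MvPolynomial (Fin m) (algebraicClosure ℚ ℂ)),
    F.IsHomogeneous D ∧ f = aeval (fun i => linearForm (c i)) F ∧
    ∀ G : MvPolynomial (Fin m) (algebraicClosure ℚ ℂ), G.IsHomogeneous (D - 1) →
      aeval (fun i => aeval l (linearForm (c i))) G = 0 → G = 0

theorem exists_of_isRelation {N : ℕ} (l : Fin N → ℂ) (m D : ℕ)
    (f : MvPolynomial (Fin N) (algebraicClosure ℚ ℂ)) (h : IsRelation l m (D + 1) f) :
    ∃ (b : Fin m → Fin N → algebraicClosure ℚ ℂ)
      (F : MvPolynomial (Fin m) (algebraicClosure ℚ ℂ)),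
      F.IsHomogeneous (D + 1) ∧ Pool.Agent.L5helper3.FewForms.Good0 D l b F ∧
        f = Pool.Agent.L5helper3.FewForms.sub b F := by
  obtain ⟨h0, c, F, h1, h2, h3⟩ := h
  have h4 : ∀ c : Fin N → algebraicClosure ℚ ℂ,
      linearForm c = Pool.Agent.L5helper3.FewForms.lin c := fun c => rfl
  simp only [h4, Pool.Agent.L5helper3.FewForms.aeval_lin, Nat.add_sub_cancel] at h2 h3
  refine ⟨c, F, h1, ⟨?_, h3⟩, h2⟩
  rw [← Pool.Agent.L5helper3.FewForms.aeval_sub, ← h0, h2]
  rfl

/-- **Main result.** -/
theorem result (N : ℕ) (l : Fin N → ℂ) (hl : ∀ j, l j ∈ LogForms)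
    (hli : LinearIndependent (algebraicClosure ℚ ℂ) l) (m : ℕ) :
    (∀ D : ℕ, 2 ≤ D →
      (∀ φ : Fin ((D + m - 1).choose D - m + 1) →
          (MvPolynomial (Fin N) (algebraicClosure ℚ ℂ) →ₗ[algebraicClosure ℚ ℂ]
            algebraicClosure ℚ ℂ),
        ∃ P : MvPolynomial (Fin ((D + m - 1).choose D - m + 1)) (algebraicClosure ℚ ℂ),
          P ≠ 0 ∧ ∀ f, IsRelation l m D f → eval (fun k => φ k f) P = 0) ∧
      ∃ κ : ℕ, ∀ H : ℕ, 1 ≤ H →
        Set.ncard {f : MvPolynomial (Fin N) ℤ | (∀ s, |coeff s f| ≤ H) ∧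
          IsRelation l m D (MvPolynomial.map (Int.castRingHom (algebraicClosure ℚ ℂ)) f)} ≤
        κ * H ^ ((D + m - 1).choose D - m)) ∧
    (∀ φ : Fin (m * (m - 1) / 2 + 1) →
        (Matrix (Fin N) (Fin N) (algebraicClosure ℚ ℂ) →ₗ[algebraicClosure ℚ ℂ]
          algebraicClosure ℚ ℂ),
      ∃ P : MvPolynomial (Fin (m * (m - 1) / 2 + 1)) (algebraicClosure ℚ ℂ), P ≠ 0 ∧
        ∀ S : Matrix (Fin N) (Fin N) (algebraicClosure ℚ ℂ), S.IsSymm → S.rank ≤ m →
          ∑ i, ∑ j, (S i j : ℂ) * l i * l j = 0 → eval (fun k => φ k S) P = 0) ∧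
    ∃ κ : ℕ, ∀ H : ℕ, 1 ≤ H →
      Set.ncard {A : Matrix (Fin N) (Fin N) ℤ | (∀ i j, |A i j| ≤ H) ∧ A.IsSymm ∧
        (A.map (algebraMap ℤ (algebraicClosure ℚ ℂ))).rank ≤ m ∧
        ∑ i, ∑ j, (A i j : ℂ) * l i * l j = 0} ≤
      κ * H ^ (m * (m - 1) / 2) := by
  refine ⟨fun D hD => ?_, Pool.Agent.L5helper3.FewForms.quad_dim l hli hl,
    Pool.Agent.L5helper3.FewForms.quad_count l hli hl⟩
  obtain ⟨D', rfl⟩ : ∃ D', D = D' + 1 := ⟨D - 1, by omega⟩
  have e : D' + 1 + m - 1 = m + D' := by omega
  rw [e]
  constructor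
  · intro φ
    obtain ⟨P, h1, h2⟩ := Pool.Agent.L5helper3.FewForms.dim_le (m := m) (D := D') (by omega)
      l hli hl φ
    refine ⟨P, h1, fun f hf => ?_⟩
    obtain ⟨b, F, h3, h4, rfl⟩ := exists_of_isRelation l m D' f hf
    exact h2 b F h3 h4
  · obtain ⟨κ, hκ⟩ := Pool.Agent.L5helper3.FewForms.count_le (m := m) (D := D') (by omega)
      l hli hl
    refine ⟨κ, fun H hH => le_trans (Set.ncard_le_ncard ?_ (hκ H hH).1) (hκ H hH).2⟩
    rintro f ⟨h1, h2⟩
    obtain ⟨b, F, h3, h4, h5⟩ := exists_of_isRelation l m D' _ h2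
    exact ⟨h1, b, F, h3, h4, h5⟩

end Pool.Agent.Results.MP_60829e_nt.RelationsInFewForms
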